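import Pool.Agent.Run7.h293.PA.Trace
import Pool.Agent.Run7.h293.PA.Known

/-!
# The `p`-parity conjecture over fields in whose Galois closure complex conjugations commute

Let `F` be a totally real field and `Ω/F` a finite Galois extension of number fields such that any two
complex conjugations in `Gal(Ω/F)` commute. Then the `p`-parity conjecture holds for every elliptic curve
`E₀/F` over every intermediate field `L` of `Ω/F`, for all primes `p`; for `p = 2` it holds for every
`E/L` with `E[2] ≅ E₀[2]` over `L`. Examples: `F = ℚ` and `L` any totally complex quartic field (of any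
Galois group, also `A₄` and `S₄`).

The complex conjugations generate an elementary abelian normal `2`-subgroup `N`, whose fixed field `T` is
totally real. The permutation representation of `Gal(Ω/F)` on `Gal(Ω/F)/Gal(Ω/L)` is a monomial representation, a sum
of representations induced from quadratic characters of fields which are contained in `T`
(`Run7/h293/PA/Mono.lean`, `Run7/h293/PA/Trace.lean`), so `p`-parity for `E₀/L` follows from `p`-parity for
quadratic twists of `E₀` over totally real fields. The known theorems are hypotheses (`Known`).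
-/

set_option autoImplicit false

namespace Pool.Agent.Results.MP_ddf76b_nt.CommutingConjugations

open Pool.Agent.Run7.h293.PA

/-- the curve `E₀/F` over the intermediate field `L` -/
abbrev baseTo {F Ω : Type} [Field F] [Field Ω] [Algebra F Ω] (E₀ : WeierstrassCurve F)
    (L : IntermediateField F Ω) : WeierstrassCurve L :=
  E₀.map (algebraMap F L)

/-- the sign `(-1)^rk · w` of a curve `E/L` -/
def sgn (rk : Invariant ℕ) (w : Invariant ℤ) (L : Type) [Field L] [NumberField L]
    (E : WeierstrassCurve L) : ℤ :=
  (-1) ^ rk.val L E * w.val L E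

/-- the sign of a curve `E` over the fixed field of the subgroup `H` of `Gal(Ω/F)` -/
def sgnAt (rk : Invariant ℕ) (w : Invariant ℤ) {F Ω : Type} [Field F] [NumberField F] [Field Ω]
    [NumberField Ω] [Algebra F Ω] (H : Subgroup (Ω ≃ₐ[F] Ω))
    (E : WeierstrassCurve (IntermediateField.fixedField H)) : ℤ :=
  sgn rk w (IntermediateField.fixedField H) E

/-- a curve over the fixed field of the stabilizer of every point of `X` -/
abbrev Curves (F Ω X : Type) [Field F] [Field Ω] [Algebra F Ω] [MulAction (Ω ≃ₐ[F] Ω) X] : Type :=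
  ∀ x : X, WeierstrassCurve (IntermediateField.fixedField (MulAction.stabilizer (Ω ≃ₐ[F] Ω) x))

/-- Artin formalism for `Ω/F`: if the permutation representation of `G = Gal(Ω/F)` on `G/H` is the monomial
representation given by the `G`-set `X` and the cocycle `c`, the sign of `E₀` over the fixed field of `H`
is the product over the orbits of `X` of the signs of certain curves `E x` over the fixed fields of the
stabilizers of the points `x` (the quadratic twists of `E₀` by the characters `c · x`). -/
def ArtinFor (rk : Invariant ℕ) (w : Invariant ℤ) (F Ω : Type) [Field F] [NumberField F] [Field Ω]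
    [NumberField Ω] [Algebra F Ω] : Prop :=
  ∀ (H : Subgroup (Ω ≃ₐ[F] Ω)) (X : Type) [Fintype X] [MulAction (Ω ≃ₐ[F] Ω) X]
    (c : (Ω ≃ₐ[F] Ω) → X → ℤˣ), Monomial H c → ∀ E₀ : WeierstrassCurve F, E₀.IsElliptic →
      ∃ E : Curves F Ω X, (∀ x, (E x).IsElliptic) ∧
        sgnAt rk w H (baseTo E₀ (IntermediateField.fixedField H)) =
          ∏ᶠ o : MulAction.orbitRel.Quotient (Ω ≃ₐ[F] Ω) X, sgnAt rk w _ (E o.out)

/-- Artin formalism -/
def Artin (rk : Invariant ℕ) (w : Invariant ℤ) : Prop :=
  ∀ (F Ω : Type) [Field F] [NumberField F] [Field Ω] [NumberField Ω] [Algebra F Ω]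
    [IsGalois F Ω], ArtinFor rk w F Ω

/-- invariance under the isomorphism `f` of the ground field -/
def IsoFor (rk : Invariant ℕ) (w : Invariant ℤ) {K K' : Type} [Field K] [NumberField K] [Field K']
    [NumberField K'] (f : K ≃+* K') : Prop :=
  ∀ W : WeierstrassCurve K, W.IsElliptic → sgn rk w K' (W.map (f : K →+* K')) = sgn rk w K W

/-- invariance under isomorphisms of the ground field -/
def Iso (rk : Invariant ℕ) (w : Invariant ℤ) : Prop :=
  ∀ (K K' : Type) [Field K] [NumberField K] [Field K'] [NumberField K'] (f : K ≃+* K'),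
    IsoFor rk w f

/-- The known theorems on the `p`-infinity Selmer ranks `rk p` and the global root number `w` of elliptic
curves over number fields which we use. -/
structure Known (rk : ℕ → Invariant ℕ) (w : Invariant ℤ) : Prop where
  /-- the root number is a sign -/
  sign : Sign w
  /-- invariance under isomorphisms of the ground field -/
  iso : ∀ p, p.Prime → Iso (rk p) w
  /-- Artin formalism -/
  artin : ∀ p, p.Prime → Artin (rk p) w
  /-- Nekovář, Green-Maistret: totally real fields -/
  totallyReal : ∀ p, p.Prime → TotallyReal (rk p) w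
  /-- Green-Maistret: curves with isomorphic `2`-torsion -/
  congruent : Congruent (rk 2) w

theorem sgn_eq_one {rk : Invariant ℕ} {w : Invariant ℤ} (h : Sign w) (L : Type) [Field L]
    [NumberField L] (E : WeierstrassCurve L) (hE : E.IsElliptic) :
    sgn rk w L E = 1 ↔ Parity rk w L E := by
  unfold sgn Parity
  rcases h L E hE with h1 | h1 <;> rw [h1]
  · rw [mul_one]
  · constructor
    · intro h2
      linarith
    · intro h2
      rw [h2]
      norm_num

/-- fields contained in a totally real field are totally real -/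
theorem totallyReal_of_le {F Ω : Type} [Field F] [NumberField F] [Field Ω] [NumberField Ω] [Algebra F Ω]
    {S T : IntermediateField F Ω} (hle : S ≤ T) (hT : NumberField.IsTotallyReal T) :
    NumberField.IsTotallyReal S := by
  let _ : Algebra S T := (IntermediateField.inclusion hle).toRingHom.toAlgebra
  have : Algebra.IsAlgebraic S T := by
    have h1 : Algebra.IsAlgebraic ℚ T := inferInstance
    exact Algebra.IsAlgebraic.tower_top (K := ℚ) S
  exact NumberField.IsTotallyReal.of_algebra S T

/-- **The main theorem for the fixed field of `H`.** -/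
theorem main {rk : ℕ → Invariant ℕ} {w : Invariant ℤ} (h : Known rk w) {F Ω : Type} [Field F]
    [NumberField F] [Field Ω] [NumberField Ω] [Algebra F Ω] [IsGalois F Ω]
    (N H : Subgroup (Ω ≃ₐ[F] Ω)) (hN : N.Normal) (h2 : ∀ n ∈ N, n * n = 1) (hsup : H ⊔ N = ⊤)
    (hT : NumberField.IsTotallyReal (IntermediateField.fixedField N))
    (E₀ : WeierstrassCurve F) (hE₀ : E₀.IsElliptic) (p : ℕ) (hp : p.Prime) :
    Parity (rk p) w (IntermediateField.fixedField H) (baseTo E₀ (IntermediateField.fixedField H)) := by
  have hfin : FiniteDimensional F Ω := Module.Finite.of_restrictScalars_finite ℚ F Ω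
  obtain ⟨A, hA, D, hD⟩ := exists_data N H hN h2 hsup
  have hfA : Finite A := Finite.of_injective _ D.inj
  have hX : Fintype D.X := Fintype.ofFinite _
  obtain ⟨E, hE, hprod⟩ := h.artin p hp F Ω H D.X D.c D.monomial E₀ hE₀
  have hone : sgnAt (rk p) w H (baseTo E₀ (IntermediateField.fixedField H)) = 1 := by
    rw [hprod]
    refine finprod_eq_one_of_forall_eq_one fun o => ?_
    unfold sgnAt
    rw [sgn_eq_one h.sign _ _ (hE _)]
    refine h.totallyReal p hp _ (totallyReal_of_le ?_ hT) _ (hE _)
    refine IntermediateField.fixedField_le fun n hn => ?_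
    rw [← hD] at hn
    obtain ⟨a, rfl⟩ := hn
    exact D.le_stabilizer _ a
  exact (sgn_eq_one h.sign _ _ inferInstance).1 hone

/-- Let `Ω/F` be a finite
Galois extension of number fields and `T` a totally real intermediate field, Galois over `F`, such that
`Gal(Ω/T)` has exponent two. Then for every elliptic curve `E₀/F` and every intermediate field `L` the
`p`-parity conjecture holds for `E₀/L` and all primes `p`, and the `2`-parity conjecture holds for all
elliptic curves `E/L` with `E[2] ≅ E₀[2]` over `L`. -/
theorem overT (rk : ℕ → Invariant ℕ) (w : Invariant ℤ) (h : Known rk w) (F Ω : Type) [Field F]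
    [NumberField F] [Field Ω] [NumberField Ω] [Algebra F Ω] [IsGalois F Ω]
    (T : IntermediateField F Ω) (hT : NumberField.IsTotallyReal T) (hTF : IsGalois F T)
    (hΩ : ∀ σ : Ω ≃ₐ[F] Ω, (∀ x ∈ T, σ x = x) → σ * σ = 1)
    (E₀ : WeierstrassCurve F) (hE₀ : E₀.IsElliptic) (L : IntermediateField F Ω) :
    (∀ p : ℕ, p.Prime → Parity (rk p) w L (baseTo E₀ L)) ∧
    ∀ E : WeierstrassCurve L, E.IsElliptic → SameTwoTorsion E (baseTo E₀ L) → Parity (rk 2) w L E := by
  have hfin : FiniteDimensional F Ω := Module.Finite.of_restrictScalars_finite ℚ F Ω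
  let F' : IntermediateField F Ω := L ⊓ T
  let r : (Ω ≃ₐ[F'] Ω) →* (Ω ≃ₐ[F] Ω) := AlgEquiv.restrictScalarsHom F
  have hr : Function.Injective r := AlgEquiv.restrictScalars_injective F
  have hfin' : FiniteDimensional F' Ω := inferInstance
  let N' : Subgroup (Ω ≃ₐ[F'] Ω) := T.fixingSubgroup.comap r
  let H' : Subgroup (Ω ≃ₐ[F'] Ω) := L.fixingSubgroup.comap r
  have hN : N'.Normal := Subgroup.Normal.comap inferInstance r
  have h2 : ∀ n ∈ N', n * n = 1 := by
    intro n hn
    apply hr
    rw [map_mul, map_one]
    exact hΩ (r n) ((IntermediateField.mem_fixingSubgroup_iff T (r n)).1 hn)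
  -- elements fixed by `H'` are in `L`, elements fixed by `N'` are in `T`
  have hlift : ∀ (S : IntermediateField F Ω), F' ≤ S → ∀ x : Ω,
      (∀ σ ∈ S.fixingSubgroup.comap r, σ x = x) → x ∈ S := by
    intro S hS x hx
    rw [← IsGalois.fixedField_fixingSubgroup S, IntermediateField.mem_fixedField_iff]
    intro σ hσ
    let σ' : Ω ≃ₐ[F'] Ω := AlgEquiv.ofRingEquiv (f := σ.toRingEquiv) fun y =>
      (IntermediateField.mem_fixingSubgroup_iff S σ).1 hσ y.1 (hS y.2)
    exact hx σ' hσ
  have hmemL : ∀ x : Ω, x ∈ IntermediateField.fixedField H' ↔ x ∈ L := by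
    intro x
    constructor
    · intro hx
      exact hlift L inf_le_left x fun σ hσ =>
        (IntermediateField.mem_fixedField_iff H' x).1 hx σ hσ
    · intro hx
      rw [IntermediateField.mem_fixedField_iff]
      intro σ hσ
      exact (IntermediateField.mem_fixingSubgroup_iff L (r σ)).1 hσ x hx
  have hmemT : ∀ x : Ω, x ∈ IntermediateField.fixedField N' ↔ x ∈ T := by
    intro x
    constructor
    · intro hx
      exact hlift T inf_le_right x fun σ hσ =>
        (IntermediateField.mem_fixedField_iff N' x).1 hx σ hσ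
    · intro hx
      rw [IntermediateField.mem_fixedField_iff]
      intro σ hσ
      exact (IntermediateField.mem_fixingSubgroup_iff T (r σ)).1 hσ x hx
  have hsup : H' ⊔ N' = ⊤ := by
    have h3 : IntermediateField.fixedField (H' ⊔ N') ≤ ⊥ := by
      intro x hx
      have h4 : x ∈ L := (hmemL x).1 (IntermediateField.fixedField_le le_sup_left hx)
      have h5 : x ∈ T := (hmemT x).1 (IntermediateField.fixedField_le le_sup_right hx)
      rw [IntermediateField.mem_bot]
      exact ⟨⟨x, h4, h5⟩, rfl⟩
    have h4 := le_bot_iff.1 h3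
    rw [← IntermediateField.fixingSubgroup_fixedField (H' ⊔ N'), h4,
      IntermediateField.fixingSubgroup_bot]
  let eT : T ≃+* IntermediateField.fixedField N' :=
    { toFun := fun x => ⟨x.1, (hmemT x.1).2 x.2⟩
      invFun := fun x => ⟨x.1, (hmemT x.1).1 x.2⟩
      left_inv := fun _ => rfl
      right_inv := fun _ => rfl
      map_mul' := fun _ _ => rfl
      map_add' := fun _ _ => rfl }
  let eL : IntermediateField.fixedField H' ≃+* L :=
    { toFun := fun x => ⟨x.1, (hmemL x.1).1 x.2⟩
      invFun := fun x => ⟨x.1, (hmemL x.1).2 x.2⟩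
      left_inv := fun _ => rfl
      right_inv := fun _ => rfl
      map_mul' := fun _ _ => rfl
      map_add' := fun _ _ => rfl }
  have hT' : NumberField.IsTotallyReal (IntermediateField.fixedField N') :=
    NumberField.IsTotallyReal.ofRingEquiv eT
  have key : ∀ p : ℕ, p.Prime → Parity (rk p) w L (baseTo E₀ L) := by
    intro p hp
    have h5 := main h N' H' hN h2 hsup hT' (baseTo E₀ F') inferInstance p hp
    rw [← sgn_eq_one h.sign _ _ inferInstance] at h5 ⊢
    have h6 := h.iso p hp (IntermediateField.fixedField H') L eL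
      (baseTo (baseTo E₀ F') (IntermediateField.fixedField H')) inferInstance
    have h7 : (baseTo (baseTo E₀ F') (IntermediateField.fixedField H')).map (eL : _ →+* L) =
        baseTo E₀ L := by
      unfold baseTo
      rw [WeierstrassCurve.map_map, WeierstrassCurve.map_map]
      congr 1
    rw [h7, h5] at h6
    exact h6
  exact ⟨key, fun E hE hs => parity_of_congruent h.sign h.congruent hE inferInstance hs
    (key 2 Nat.prime_two)⟩

/-- `σ` is the complex conjugation of `Ω/F` for an embedding of `Ω` in `ℂ` -/
def IsComplexConj {F Ω : Type} [Field F] [Field Ω] [Algebra F Ω] (σ : Ω ≃ₐ[F] Ω) : Prop :=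
  ∃ φ : Ω →+* ℂ, NumberField.ComplexEmbedding.IsConj φ σ

section conj

variable {F Ω : Type} [Field F] [Field Ω] [Algebra F Ω]

theorem IsComplexConj.sq {σ : Ω ≃ₐ[F] Ω} (h : IsComplexConj σ) : σ * σ = 1 := by
  obtain ⟨φ, hφ⟩ := h
  refine AlgEquiv.ext fun x => ?_
  exact NumberField.ComplexEmbedding.isConj_apply_apply hφ x

theorem IsComplexConj.conj {σ : Ω ≃ₐ[F] Ω} (h : IsComplexConj σ) (ν : Ω ≃ₐ[F] Ω) :
    IsComplexConj (ν * σ * ν⁻¹) := by
  obtain ⟨φ, hφ⟩ := h
  have h1 := hφ.comp ν⁻¹
  rw [inv_inv] at h1
  exact ⟨_, h1⟩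

theorem conjugates_sub {σ : Ω ≃ₐ[F] Ω} (h : σ ∈ Group.conjugatesOfSet {σ : Ω ≃ₐ[F] Ω | IsComplexConj σ}) :
    IsComplexConj σ := by
  rw [Group.mem_conjugatesOfSet_iff] at h
  obtain ⟨τ, hτ, hc⟩ := h
  obtain ⟨ν, rfl⟩ := isConj_iff.1 hc
  exact IsComplexConj.conj hτ ν

theorem exponent_two (hcomm : ∀ σ τ : Ω ≃ₐ[F] Ω, IsComplexConj σ → IsComplexConj τ → σ * τ = τ * σ) :
    ∀ n ∈ Subgroup.normalClosure {σ : Ω ≃ₐ[F] Ω | IsComplexConj σ}, n * n = 1 := by
  set C := Group.conjugatesOfSet {σ : Ω ≃ₐ[F] Ω | IsComplexConj σ} with hC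
  have h1 : Subgroup.closure C ≤ Subgroup.centralizer C := by
    rw [Subgroup.closure_le]
    intro σ hσ
    rw [SetLike.mem_coe, Subgroup.mem_centralizer_iff]
    intro τ hτ
    exact hcomm τ σ (conjugates_sub hτ) (conjugates_sub hσ)
  have h2 : Subgroup.closure C ≤ Subgroup.centralizer (Subgroup.closure C) := by
    rw [Subgroup.closure_le]
    intro σ hσ
    rw [SetLike.mem_coe, Subgroup.mem_centralizer_iff]
    intro τ hτ
    exact (Subgroup.mem_centralizer_iff.1 (h1 hτ) σ hσ).symm
  intro n hn
  change n ∈ Subgroup.closure C at hn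
  induction hn using Subgroup.closure_induction with
  | mem σ hσ => exact (conjugates_sub hσ).sq
  | one => exact one_mul 1
  | mul x y hx hy ihx ihy =>
    have h3 : y * x = x * y := (Subgroup.mem_centralizer_iff.1 (h2 hx) y hy)
    calc x * y * (x * y) = x * (y * x) * y := by group
      _ = (x * x) * (y * y) := by rw [h3]; group
      _ = 1 := by rw [ihx, ihy, one_mul]
  | inv x hx ih =>
    rw [← mul_inv_rev, ih, inv_one]

theorem totallyReal_fixed [NumberField F] [NumberField Ω] [IsGalois F Ω]
    (hF : NumberField.IsTotallyReal F) (N : Subgroup (Ω ≃ₐ[F] Ω))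
    (hN : ∀ σ : Ω ≃ₐ[F] Ω, IsComplexConj σ → σ ∈ N) :
    NumberField.IsTotallyReal (IntermediateField.fixedField N) := by
  refine ⟨fun v => ?_⟩
  rw [NumberField.InfinitePlace.isReal_iff]
  have halg : Algebra.IsAlgebraic (IntermediateField.fixedField N) Ω := by
    have h1 : Algebra.IsAlgebraic ℚ Ω := inferInstance
    exact Algebra.IsAlgebraic.tower_top (K := ℚ) _
  let φ : Ω →+* ℂ := NumberField.ComplexEmbedding.lift Ω v.embedding
  have hφ : φ.comp (algebraMap (IntermediateField.fixedField N) Ω) = v.embedding :=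
    NumberField.ComplexEmbedding.lift_comp_algebraMap _ _
  have h1 : φ.comp (algebraMap F Ω) =
      (NumberField.ComplexEmbedding.conjugate φ).comp (algebraMap F Ω) := by
    have h2 := NumberField.IsTotallyReal.complexEmbedding_isReal (φ.comp (algebraMap F Ω))
    have h3 : NumberField.ComplexEmbedding.conjugate (φ.comp (algebraMap F Ω)) =
        φ.comp (algebraMap F Ω) := h2
    exact h3.symm
  obtain ⟨σ, hσ⟩ := NumberField.ComplexEmbedding.exists_comp_symm_eq_of_comp_eq φ
    (NumberField.ComplexEmbedding.conjugate φ) h1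
  have h4 : σ.symm ∈ N := hN σ.symm ⟨φ, hσ.symm⟩
  refine RingHom.ext fun x => ?_
  have h5 : σ.symm (x : Ω) = x := (IntermediateField.mem_fixedField_iff N _).1 x.2 _ h4
  have h6 : φ (σ.symm (x : Ω)) = NumberField.ComplexEmbedding.conjugate φ (x : Ω) :=
    congrArg (fun f : Ω →+* ℂ => f (x : Ω)) hσ
  rw [h5] at h6
  have h7 : v.embedding x = φ (x : Ω) := congrArg (fun f : _ →+* ℂ => f x) hφ.symm
  rw [NumberField.ComplexEmbedding.conjugate_coe_eq, h7]
  exact h6.symm

end conj

/-- **`p`-parity if complex conjugations commute.** Let `Ω/F` be a finite Galois extension of number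
fields, `F` totally real, such that any two complex conjugations in `Gal(Ω/F)` commute. Then for every
elliptic curve `E₀/F` and every intermediate field `L` the `p`-parity conjecture holds for `E₀/L` and all
primes `p`, and the `2`-parity conjecture holds for all elliptic curves `E/L` with `E[2] ≅ E₀[2]` over `L`. -/
theorem result (rk : ℕ → Invariant ℕ) (w : Invariant ℤ) (h : Known rk w) (F Ω : Type) [Field F]
    [NumberField F] [Field Ω] [NumberField Ω] [Algebra F Ω] [IsGalois F Ω]
    (hF : NumberField.IsTotallyReal F)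
    (hΩ : ∀ σ τ : Ω ≃ₐ[F] Ω, IsComplexConj σ → IsComplexConj τ → σ * τ = τ * σ)
    (E₀ : WeierstrassCurve F) (hE₀ : E₀.IsElliptic) (L : IntermediateField F Ω) :
    (∀ p : ℕ, p.Prime → Parity (rk p) w L (baseTo E₀ L)) ∧
    ∀ E : WeierstrassCurve L, E.IsElliptic → SameTwoTorsion E (baseTo E₀ L) → Parity (rk 2) w L E := by
  have hfin : FiniteDimensional F Ω := Module.Finite.of_restrictScalars_finite ℚ F Ω
  set N := Subgroup.normalClosure {σ : Ω ≃ₐ[F] Ω | IsComplexConj σ} with hN
  have hnormal : N.Normal := Subgroup.normalClosure_normal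
  refine overT rk w h F Ω (IntermediateField.fixedField N) (totallyReal_fixed hF N fun σ hσ =>
    Subgroup.subset_normalClosure hσ) (IsGalois.of_fixedField_normal_subgroup N) ?_ E₀ hE₀ L
  intro σ hσ
  refine exponent_two hΩ σ ?_
  rw [← hN, ← IntermediateField.fixingSubgroup_fixedField N]
  exact (IntermediateField.mem_fixingSubgroup_iff _ σ).2 hσ

end Pool.Agent.Results.MP_ddf76b_nt.CommutingConjugations
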