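import Pool.Agent.Run7.h293.PA.Desc
import Pool.Agent.Run7.h293.PA.Known

/-!
# The `2`-parity conjecture for curves whose `2`-torsion is isomorphic to a conjugate

Let `E` be an elliptic curve over a number field `K`, `M/K` a Galois extension of odd degree (for example
`M = K`) and `σ` an automorphism of the field `M` of even order. If `E[2]` and its conjugate `(σ E)[2]`
are isomorphic over `M`, the `2`-parity conjecture holds for `E/K`.

The theorems of Kramer-Tunnell and Dokchitser-Dokchitser (curves over quadratic extensions; curves with a
`2`-isogeny; Galois extensions of odd degree) and of Green-Maistret (curves with isomorphic `2`-torsion)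
are hypotheses (definitions in `Run7/h293/PA/Known.lean`). What is proved here is the descent of the cubic
field of the `2`-torsion to a subfield of index two (`Run7/h293/PA/Desc.lean`).
-/

set_option autoImplicit false

open Polynomial

namespace Pool.Agent.Results.MP_ddf76b_nt.ConjugateTwoTorsion

open Pool.Agent.Run7.h293.PA

/-- The known theorems on the `2`-infinity Selmer rank `rk` and the global root number `w` of elliptic
curves over number fields which we use. -/
structure Known (rk : Invariant ℕ) (w : Invariant ℤ) : Prop where
  /-- the root number is a sign -/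
  sign : Sign w
  /-- Green-Maistret: curves with isomorphic `2`-torsion -/
  congruent : Congruent rk w
  /-- Kramer-Tunnell, Dokchitser-Dokchitser: base changes to quadratic extensions -/
  quadratic : Quadratic rk w
  /-- Dokchitser-Dokchitser: curves with a rational point of order two -/
  isogeny : Isogeny rk w
  /-- Galois extensions of odd degree -/
  odd : OddGalois rk w

/-- **The `2`-parity conjecture for curves whose `2`-torsion is isomorphic to a conjugate.** -/
theorem result (rk : Invariant ℕ) (w : Invariant ℤ) (h : Known rk w) (K M : Type) [Field K]
    [NumberField K] [Field M] [NumberField M] [Algebra K M] [IsGalois K M]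
    (hodd : Odd (Module.finrank K M)) (W : WeierstrassCurve K) (hW : W.IsElliptic)
    (σ : M ≃ₐ[ℚ] M) (hσ : Even (orderOf σ))
    (hE : SameTwoTorsion (W.map (algebraMap K M)) ((W.map (algebraMap K M)).map (σ : M →+* M))) :
    Parity rk w K W := by
  have hWM : (W.map (algebraMap K M)).IsElliptic := inferInstance
  have key : Parity rk w M (W.map (algebraMap K M)) := by
    have hdeg : (W.map (algebraMap K M)).twoTorsionPolynomial.toPoly.natDegree = 3 :=
      Cubic.natDegree_of_a_ne_zero (by change (4 : M) ≠ 0; norm_num)
    by_cases hirr : Irreducible (W.map (algebraMap K M)).twoTorsionPolynomial.toPoly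
    · obtain ⟨φ⟩ := hE
      obtain ⟨F, hF, W₀, hW₀, hs⟩ := Pool.Agent.Run7.h293.PA.descent σ hσ _ hirr φ
      exact parity_of_congruent h.sign h.congruent hWM inferInstance hs (h.quadratic F M hF W₀ hW₀)
    · refine h.isogeny M _ hWM ?_
      rw [Polynomial.irreducible_iff_roots_eq_zero_of_degree_le_three (by omega) (by omega)] at hirr
      obtain ⟨x, hx⟩ := Multiset.exists_mem_of_ne_zero hirr
      exact ⟨x, (Polynomial.mem_roots'.1 hx).2⟩
  obtain ⟨h1, h2⟩ := h.odd K M hodd W hW
  unfold Parity at key ⊢
  rw [← h1, ← h2]
  exact key

end Pool.Agent.Results.MP_ddf76b_nt.ConjugateTwoTorsion
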