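import Mathlib
import Pool.Agent.Run7.h988.PY.Fin

/-!
# Minimal failures of the `p`-parity conjecture in a Galois extension

`F/K` is a finite Galois extension of number fields with group `G` and `E/K` is an elliptic curve.
If the `p`-parity conjecture fails for `E` over `K`, it fails over an intermediate field `L` for which it
holds over every larger intermediate field, and the Galois group of `F/L` is of a very special kind.

For `p = 2` two theorems are known over all number fields: `2`-parity holds for `E` over quadratic extensions of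
fields over which `E` is defined (Kramer and Tunnell, T. and V. Dokchitser), and if `E` has a point of order two
(T. and V. Dokchitser). If `F` contains `K(E[2])`, it follows that `L` is not a quadratic extension of an
intermediate field, and that `L(E[2])/L` has the Galois group `S₃`.
-/

set_option autoImplicit false

namespace Pool.Agent.Results.MP_ddf76b_nt.MinimalFailures

open Pool.Agent.H541R3.ART Run7.h988.PY

/-- The `p`-infinity Selmer group and the root numbers of an elliptic curve `E/K` along a finite Galois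
extension `F/K` with group `G`; the subgroup `H` stands for the intermediate field `F^H`. -/
structure Curve (p : ℕ) [Fact p.Prime] (G : Type) [Group G] [Finite G] (X : Type) [AddCommGroup X]
    [Module ℚ_[p] X] where
  /-- the representation of `G` on `X = X_p(E/F) ⊗ ℚ_p` -/
  ρ : Representation ℚ_[p] G X
  /-- `X` is self-dual -/
  selfdual : ∀ g, ρ.character g⁻¹ = ρ.character g
  /-- the root numbers `w(E/K, χ)` of the Artin twists by the irreducible characters of `G` -/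
  w : (G → ℂ) → ℂ
  /-- the root number `w(E/F^H)` -/
  W : Subgroup G → ℂ
  /-- the root numbers of the twists by `χ` and by the complex conjugate of `χ` have product `1` -/
  dual : ∀ χ ∈ Irr G, w χ * w (fun g => (starRingEnd ℂ) (χ g)) = 1
  /-- Galois invariance (Rohrlich): for a real valued character `χ`, the twists by `χ` and by its
  conjugate `g ↦ χ (g ^ k)` have the same root number -/
  galois : ∀ χ ∈ Irr G, (∀ g, (starRingEnd ℂ) (χ g) = χ g) → ∀ k : ℕ, Nat.Coprime (Nat.card G) k →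
    w (fun g => χ (g ^ k)) = w χ
  /-- the root number over `F^H` is the product of the `w(E/K, χ)` to the power the dimension of the
  space of `H`-invariants of `χ` -/
  artin : ∀ H : Subgroup G, ∀ m : (G → ℂ) → ℕ,
    (∀ χ ∈ Irr G, (m χ : ℂ) = (Nat.card H : ℂ)⁻¹ * ∑ᶠ h : H, χ h) → W H = ∏ᶠ χ ∈ Irr G, w χ ^ m χ

variable {p : ℕ} [Fact p.Prime] {G : Type} [Group G] [Finite G] {X : Type} [AddCommGroup X]
  [Module ℚ_[p] X]

/-- `rk_p E/F^H`, the dimension of the `H`-invariants of `X_p(E/F) ⊗ ℚ_p` -/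
noncomputable def Curve.rank (E : Curve p G X) (H : Subgroup G) : ℕ :=
  Module.finrank ℚ_[p] (Representation.invariants (E.ρ.comp H.subtype))

/-- the `p`-parity conjecture for `E` over `F^H` -/
def Curve.Parity (E : Curve p G X) (H : Subgroup G) : Prop := (-1) ^ E.rank H = E.W H

/-- the values of the character of `X_p(E/F) ⊗ ℚ_p` do not change under `g ↦ g ^ k` -/
def Curve.Mult (E : Curve p G X) (k : ℕ) : Prop :=
  Nat.Coprime (Nat.card G) k ∧ ∀ g, E.ρ.character (g ^ k) = E.ρ.character g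

lemma perm_two : ∀ z : Equiv.Perm (Fin 3), z ^ 2 = 1 ∨ z ^ 3 = 1 := by decide

set_option maxRecDepth 100000 in
lemma perm_prod : ∀ x y : Equiv.Perm (Fin 3), (x ^ 2 = 1 ∧ y ^ 2 = 1 ∧ x ≠ 1 ∧ y ≠ 1 ∧ x ≠ y) →
    ((x * y) ^ 3 = 1 ∧ x * y ≠ 1) := by decide

lemma perm_fix : ∀ x : Equiv.Perm (Fin 3), x ^ 2 = 1 → ∃ i, x i = i := by decide

/-- a subgroup of `S₃` without a common fixed point contains an element of order three -/
lemma exists_three (Q : Subgroup (Equiv.Perm (Fin 3))) (h : ¬ ∃ i, ∀ z ∈ Q, z i = i) :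
    ∃ z ∈ Q, z ^ 3 = 1 ∧ z ≠ 1 := by
  by_contra hcon
  push Not at hcon
  have h2 : ∀ z ∈ Q, z ^ 2 = 1 := by
    intro z hz
    rcases perm_two z with h1 | h1
    · exact h1
    · rw [hcon z hz h1, one_pow]
  apply h
  by_cases h3 : ∃ x ∈ Q, x ≠ 1
  · obtain ⟨x, hx, hx1⟩ := h3
    obtain ⟨i, hi⟩ := perm_fix x (h2 x hx)
    refine ⟨i, fun z hz => ?_⟩
    by_cases hz1 : z = 1
    · rw [hz1]
      rfl
    by_cases hzx : z = x
    · rw [hzx]
      exact hi
    obtain ⟨h4, h5⟩ := perm_prod z x ⟨h2 z hz, h2 x hx, hz1, hx1, hzx⟩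
    exact absurd (hcon _ (Q.mul_mem hz hx) h4) h5
  · push Not at h3
    refine ⟨0, fun z hz => ?_⟩
    rw [h3 z hz]
    rfl

/-- **Minimal failures of `p`-parity.** -/
theorem result [FiniteDimensional ℚ_[p] X] (τ : ℚ_[p] →+* ℂ) (E : Curve p G X) (hE : ¬ E.Parity ⊤) :
    (∃ U C : Subgroup G, ¬ E.Parity U ∧ (∀ U' : Subgroup G, U' < U → E.Parity U') ∧
      C ≤ U ∧ IsCyclic C ∧ Odd (Nat.card C) ∧ (∀ u ∈ U, ∀ c ∈ C, u * c * u⁻¹ ∈ C) ∧
      (∀ u ∈ U, ∃ j : ℕ, u ^ 2 ^ j ∈ C) ∧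
      (∀ q : ℕ, q.Prime → q ∣ Nat.card C → ∃ u ∈ U, ∀ c ∈ C, c ^ q = 1 → u * c * u⁻¹ = c⁻¹) ∧
      (∀ q : ℕ, q.Prime → q ∣ Nat.card C → ∀ k : ℕ, E.Mult k →
        ∃ m : ℕ, Odd m ∧ ∃ u ∈ U, ∀ c ∈ C, c ^ q = 1 → u * c * u⁻¹ = c ^ k ^ m) ∧
      ((∀ H H' : Subgroup G, H ≤ H' → H.relIndex H' = 2 → E.Parity H) →
        ∀ U' : Subgroup G, U ≤ U' → U.relIndex U' ≠ 2) ∧
      ∀ π : G →* Equiv.Perm (Fin 3), (∀ H : Subgroup G, (∃ i, ∀ h ∈ H, π h i = i) → E.Parity H) →
        U.map π = ⊤ ∧ 3 ∣ Nat.card C) ∧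
    ∀ a : ℕ, (∀ g : G, (∃ b : ℕ, g ^ 2 ^ b = 1) → g ^ 2 ^ a = 1) →
      (∀ q : ℕ, q.Prime → q ≠ 2 → q ∣ Nat.card G → ∃ k : ℕ, E.Mult k ∧ 2 ^ (a + 1) ∣ orderOf (k : ZMod q)) →
      ∃ U : Subgroup G, IsPGroup 2 U ∧ ¬ E.Parity U ∧ ∀ U' : Subgroup G, U' < U → E.Parity U' := by
  classical
  let D : G → ℂ := fun g => τ (E.ρ.character g) + Dw E.w g
  have hpar : ∀ H : Subgroup G, E.Parity H ↔ Ev D H := fun H => parity τ E.ρ E.w E.dual H (E.W H) (E.artin H)
  have hD : Pool.Agent.W446.AS.Virt D := by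
    have h1 : D = (fun g => τ (E.ρ.character g)) + Dw E.w := rfl
    rw [h1]
    exact add_mem (virt_char τ E.ρ) (virt_Dw E.w)
  have hDk : ∀ k : ℕ, E.Mult k → ∀ g, D (g ^ k) = D g := by
    intro k hk g
    change τ (E.ρ.character (g ^ k)) + Dw E.w (g ^ k) = _
    rw [hk.2, Dw_pow E.w hk.1 (fun χ hχ hre => E.galois χ hχ hre k hk.1)]
  have h0 : ¬ Ev D ⊤ := fun h => hE ((hpar ⊤).mpr h)
  refine ⟨?_, ?_⟩
  · obtain ⟨U, ⟨C, hCU, hC, hcop, hnorm, hpow⟩, hodd, hmin, hcrit⟩ := crit hD h0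
    have key : ∀ q : ℕ, q.Prime → q ∣ Nat.card C → ∀ k : ℕ, E.Mult k →
        ∃ m : ℕ, Odd m ∧ ∃ u ∈ U, ∀ c ∈ C, c ^ q = 1 → u * c * u⁻¹ = c ^ k ^ m := by
      intro q hq hqC k hk
      have hq2 : q ≠ 2 := by
        rintro rfl
        have h1 := Nat.dvd_gcd hqC dvd_rfl
        rw [hcop] at h1
        exact absurd (Nat.le_of_dvd one_pos h1) (by norm_num)
      obtain ⟨m, hm, u, hu, huc⟩ := hcrit k hk.1 (hDk k hk) q hq hq2 (hqC.trans (Subgroup.card_dvd_of_le hCU))
      exact ⟨m, hm, u, hu, fun c hc hcq => huc c (hCU hc) hcq⟩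
    have hU : ¬ E.Parity U := fun h => hodd ((hpar U).mp h)
    have hinvol : ∀ q : ℕ, q.Prime → q ∣ Nat.card C → ∃ u ∈ U, ∀ c ∈ C, c ^ q = 1 → u * c * u⁻¹ = c⁻¹ := by
      intro q hq hqC
      obtain ⟨n, hn⟩ : ∃ n, Nat.card G = n + 1 := ⟨_, (Nat.succ_pred_eq_of_pos Nat.card_pos).symm⟩
      have h1 : ∀ g : G, g ^ n = g⁻¹ := fun g => by
        rw [eq_inv_iff_mul_eq_one, ← pow_succ, ← hn, pow_card_eq_one']
      have h2 : Nat.Coprime (Nat.card G) n := by
        rw [hn]
        exact Nat.coprime_self_add_left.mpr (Nat.coprime_one_left n) |>.symm |>.symm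
      obtain ⟨m, hm, u, hu, huc⟩ := key q hq hqC n ⟨h2, fun g => by rw [h1, E.selfdual]⟩
      refine ⟨u, hu, fun c hc hcq => ?_⟩
      rw [huc c hc hcq]
      have h3 : ∀ j : ℕ, c ^ n ^ (2 * j + 1) = c⁻¹ := by
        intro j
        induction j with
        | zero => rw [mul_zero, zero_add, pow_one, h1]
        | succ j ih =>
          have h4 : n ^ (2 * (j + 1) + 1) = n ^ (2 * j + 1) * n * n := by ring
          rw [h4, pow_mul, pow_mul, ih, h1, h1, inv_inv]
      obtain ⟨j, rfl⟩ := hm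
      exact h3 j
    refine ⟨U, C, hU, fun U' hU' => (hpar U').mpr (hmin U' hU'), hCU, hC,
      Nat.coprime_two_right.mp hcop, hnorm, hpow, hinvol, key, fun quad U' hUU' h => hU (quad U U' hUU' h), ?_⟩
    intro π point
    have hfix : ¬ ∃ i, ∀ z ∈ U.map π, z i = i := by
      rintro ⟨i, hi⟩
      exact hU (point U ⟨i, fun h hh => hi _ ⟨h, hh, rfl⟩⟩)
    obtain ⟨z, ⟨x, hx, rfl⟩, hz3, hz1⟩ := exists_three _ hfix
    obtain ⟨j, hj⟩ := hpow x hx
    have hs3 : (π (x ^ 2 ^ j)) ^ 3 = 1 := by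
      rw [map_pow, ← pow_mul, mul_comm, pow_mul, hz3, one_pow]
    have hs1 : π (x ^ 2 ^ j) ≠ 1 := by
      intro h
      rw [map_pow] at h
      apply hz1
      have h2 : Nat.Coprime (2 ^ j) 3 := Nat.Coprime.pow_left j (by norm_num)
      have h3 := Nat.dvd_gcd (orderOf_dvd_of_pow_eq_one h) (orderOf_dvd_of_pow_eq_one hz3)
      rw [h2] at h3
      exact orderOf_eq_one_iff.mp (Nat.dvd_one.mp h3)
    set c' : G := x ^ 2 ^ j with hc'
    have hord3 : orderOf (π c') = 3 := orderOf_eq_prime hs3 hs1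
    have h3C : 3 ∣ Nat.card C := by
      have h1 : orderOf (π c') ∣ orderOf c' := orderOf_map_dvd π c'
      rw [hord3] at h1
      have h2 : orderOf c' ∣ Nat.card C := by
        have h4 := orderOf_dvd_natCard (⟨c', hj⟩ : C)
        rwa [← Subgroup.orderOf_coe] at h4
      exact h1.trans h2
    obtain ⟨u, hu, huc⟩ := hinvol 3 Nat.prime_three h3C
    -- conjugation by `u` on `C`
    have hconj : ∃ t : ℤ, ∀ c ∈ C, u * c * u⁻¹ = c ^ t := by
      let φ : C →* C :=
        { toFun := fun c => ⟨u * c * u⁻¹, hnorm u hu c c.2⟩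
          map_one' := Subtype.ext (by simp)
          map_mul' := fun a b => Subtype.ext (by
            change u * (a * b : G) * u⁻¹ = (u * a * u⁻¹) * (u * b * u⁻¹)
            group) }
      obtain ⟨t, ht⟩ := MonoidHom.map_cyclic φ
      refine ⟨t, fun c hc => ?_⟩
      have h1 := congrArg Subtype.val (ht ⟨c, hc⟩)
      exact h1
    obtain ⟨t, ht⟩ := hconj
    have : Fact (Nat.Prime 3) := ⟨Nat.prime_three⟩
    obtain ⟨⟨c, hcC⟩, hc⟩ := exists_prime_orderOf_dvd_card' 3 h3C
    have hcord : orderOf c = 3 := by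
      rw [← hc]
      exact Subgroup.orderOf_coe (⟨c, hcC⟩ : C)
    have hdvd : (3 : ℤ) ∣ t + 1 := by
      have h1 := huc c hcC (by rw [← hcord]; exact pow_orderOf_eq_one c)
      rw [ht c hcC] at h1
      have h2 : c ^ (t + 1) = 1 := by rw [zpow_add, h1, zpow_one, inv_mul_cancel]
      have h3 := orderOf_dvd_iff_zpow_eq_one.mpr h2
      rwa [hcord] at h3
    have hinv : π u * π c' * (π u)⁻¹ = (π c')⁻¹ := by
      rw [← map_inv, ← map_mul, ← map_mul, ht c' hj, map_zpow]
      obtain ⟨w, hw⟩ := hdvd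
      have h1 : t = 3 * w - 1 := by linarith
      have h2 : (π c') ^ (3 : ℤ) = 1 := by exact_mod_cast hs3
      rw [h1, zpow_sub, zpow_mul, h2, one_zpow, zpow_one, one_mul]
    have htop : U.map π = ⊤ := by
      have h6 : Nat.card (Equiv.Perm (Fin 3)) = 6 := by
        rw [Nat.card_eq_fintype_card, Fintype.card_perm, Fintype.card_fin]
        rfl
      have h1 : Nat.card (U.map π) ∣ 6 := by
        rw [← h6]
        exact Subgroup.card_subgroup_dvd_card _
      have hc'U : π c' ∈ U.map π := ⟨c', hCU hj, rfl⟩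
      have huU : π u ∈ U.map π := ⟨u, hu, rfl⟩
      have h2 : 3 ∣ Nat.card (U.map π) := by
        have h4 := orderOf_dvd_natCard (⟨π c', hc'U⟩ : U.map π)
        rwa [← Subgroup.orderOf_coe, hord3] at h4
      have h3 : Nat.card (U.map π) ≠ 3 := by
        intro h3
        have hcyc : IsCyclic (U.map π) := isCyclic_of_prime_card h3
        have hcomm : (⟨π u, huU⟩ : U.map π) * ⟨π c', hc'U⟩ = ⟨π c', hc'U⟩ * ⟨π u, huU⟩ := by
          obtain ⟨g, hg⟩ := hcyc.exists_generator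
          obtain ⟨a, ha⟩ := hg ⟨π u, huU⟩
          obtain ⟨b, hb⟩ := hg ⟨π c', hc'U⟩
          rw [← ha, ← hb]
          change g ^ a * g ^ b = g ^ b * g ^ a
          rw [← zpow_add, ← zpow_add, add_comm]
        have hcomm' : π u * π c' = π c' * π u := congrArg Subtype.val hcomm
        rw [hcomm', mul_inv_cancel_right] at hinv
        apply hs1
        have h5 : π c' * π c' = 1 := by
          nth_rewrite 2 [hinv]
          exact mul_inv_cancel _
        have h7 : (π c') ^ 3 = π c' := by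
          rw [pow_succ, pow_two, h5, one_mul]
        rw [← h7, hs3]
      apply Subgroup.eq_top_of_card_eq
      rw [h6]
      obtain ⟨a, ha⟩ := h2
      rw [ha] at h1 h3 ⊢
      have h4 : a ∣ 2 := by
        have h5 : 3 * a ∣ 3 * 2 := h1
        exact Nat.dvd_of_mul_dvd_mul_left (by norm_num) h5
      have h5 : a ≤ 2 := Nat.le_of_dvd (by norm_num) h4
      interval_cases a
      · simp at h4
      · simp at h3
      · rfl
    exact ⟨htop, h3C⟩
  · intro a ha hq
    obtain ⟨U, hU, hodd, hmin⟩ := crit_two hD h0 a ha (fun q hq1 hq2 hq3 => by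
      obtain ⟨k, hk, hord⟩ := hq q hq1 hq2 hq3
      exact ⟨k, hk.1, hDk k hk, hord⟩)
    exact ⟨U, hU, fun h => hodd ((hpar U).mp h), fun U' hU' => (hpar U').mpr (hmin U' hU')⟩

end Pool.Agent.Results.MP_ddf76b_nt.MinimalFailures
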