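import Mathlib
import Pool.Agent.Run7.h988.PY.Fin

/-!
# The `p`-parity conjecture over the subfields of solvable-by-abelian extensions

`F/K` is a finite Galois extension of number fields with group `G`, `E/K` is an elliptic curve and
`N` is a solvable normal subgroup of `G` with fixed field `F₀`. Suppose that there is a `k` such that the
Selmer module has the same character values at `g` and `g ^ k`, and such that `2 ^ (a + 1)` divides the order
of `k` modulo all primes dividing the order of `N`, where `2 ^ a` is the exponent of the Sylow `2`-subgroups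
of the group of automorphisms of `N` induced by `G`. Then for every intermediate field `L` the `p`-parity
conjecture holds for `E` over `L` if and only if it holds over `L ∩ F₀`. If `F₀/K` is abelian and `p`-parity
holds over `K` and over the quadratic extensions of `K` in `F` (for `K = ℚ` this is a theorem of
T. and V. Dokchitser) it holds over all intermediate fields.

If `p = 2` and `E` is defined over a number field then `2`-parity holds over its quadratic extensions (Kramer and
Tunnell, T. and V. Dokchitser). It follows that if the degree of `F₀/K` is a power of two, `2`-parity holds for `E`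
over all intermediate fields `L` of `F/K` with `L ∩ F₀ ≠ K`, without a condition on `K`.
-/

set_option autoImplicit false

namespace Pool.Agent.Results.MP_ddf76b_nt.SubfieldsOverAbelianFields

open Pool.Agent.H541R3.ART Run7.h988.PY

/-- The `p`-infinity Selmer group and the root numbers of an elliptic curve `E/K` along a finite Galois
extension `F/K` with group `G`; the subgroup `H` stands for the intermediate field `F^H`. -/
structure Curve (p : ℕ) [Fact p.Prime] (G : Type) [Group G] [Finite G] (X : Type) [AddCommGroup X]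
    [Module ℚ_[p] X] where
  /-- the representation of `G` on `X = X_p(E/F) ⊗ ℚ_p` -/
  ρ : Representation ℚ_[p] G X
  /-- `X` is self-dual -/
  selfdual : ∀ g, ρ.character g⁻¹ = ρ.character g
  /-- the root numbers `w(E/K, χ)` of the Artin twists by the irreducible characters of `G` -/
  w : (G → ℂ) → ℂ
  /-- the root number `w(E/F^H)` -/
  W : Subgroup G → ℂ
  /-- the root numbers of the twists by `χ` and by the complex conjugate of `χ` have product `1` -/
  dual : ∀ χ ∈ Irr G, w χ * w (fun g => (starRingEnd ℂ) (χ g)) = 1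
  /-- Galois invariance (Rohrlich): for a real valued character `χ`, the twists by `χ` and by its
  conjugate `g ↦ χ (g ^ k)` have the same root number -/
  galois : ∀ χ ∈ Irr G, (∀ g, (starRingEnd ℂ) (χ g) = χ g) → ∀ k : ℕ, Nat.Coprime (Nat.card G) k →
    w (fun g => χ (g ^ k)) = w χ
  /-- the root number over `F^H` is the product of the `w(E/K, χ)` to the power the dimension of the
  space of `H`-invariants of `χ` -/
  artin : ∀ H : Subgroup G, ∀ m : (G → ℂ) → ℕ,
    (∀ χ ∈ Irr G, (m χ : ℂ) = (Nat.card H : ℂ)⁻¹ * ∑ᶠ h : H, χ h) → W H = ∏ᶠ χ ∈ Irr G, w χ ^ m χ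

variable {p : ℕ} [Fact p.Prime] {G : Type} [Group G] [Finite G] {X : Type} [AddCommGroup X]
  [Module ℚ_[p] X]

/-- `rk_p E/F^H`, the dimension of the `H`-invariants of `X_p(E/F) ⊗ ℚ_p` -/
noncomputable def Curve.rank (E : Curve p G X) (H : Subgroup G) : ℕ :=
  Module.finrank ℚ_[p] (Representation.invariants (E.ρ.comp H.subtype))

/-- the `p`-parity conjecture for `E` over `F^H` -/
def Curve.Parity (E : Curve p G X) (H : Subgroup G) : Prop := (-1) ^ E.rank H = E.W H

/-- the values of the character of `X_p(E/F) ⊗ ℚ_p` do not change under `g ↦ g ^ k` -/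
def Curve.Mult (E : Curve p G X) (k : ℕ) : Prop :=
  Nat.Coprime (Nat.card G) k ∧ ∀ g, E.ρ.character (g ^ k) = E.ρ.character g

/-- if `G/N` is a `2`-group, a proper subgroup which contains `N` has index two in some subgroup -/
lemma exists_index_two {G : Type} [Group G] [Finite G] (N : Subgroup G) [N.Normal]
    (h2 : ∀ g : G, ∃ j : ℕ, g ^ 2 ^ j ∈ N) (M : Subgroup G) (hNM : N ≤ M) (hM : M ≠ ⊤) :
    ∃ M' : Subgroup G, M ≤ M' ∧ M.relIndex M' = 2 := by
  classical
  have : Fact (Nat.Prime 2) := ⟨Nat.prime_two⟩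
  let f : G →* G ⧸ N := QuotientGroup.mk' N
  have hf : Function.Surjective f := QuotientGroup.mk'_surjective N
  have hQ : IsPGroup 2 (G ⧸ N) := by
    intro x
    obtain ⟨g, rfl⟩ := hf x
    obtain ⟨j, hj⟩ := h2 g
    refine ⟨j, ?_⟩
    rw [← map_pow]
    exact (QuotientGroup.eq_one_iff _).mpr hj
  have hcm : (M.map f).comap f = M := by
    rw [Subgroup.comap_map_eq, QuotientGroup.ker_mk', sup_eq_left.mpr hNM]
  obtain ⟨a, ha⟩ := (IsPGroup.iff_card).mp (hQ.to_subgroup (M.map f))
  obtain ⟨b, hb⟩ := (IsPGroup.iff_card).mp hQ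
  have hne : M.map f ≠ ⊤ := by
    intro h
    apply hM
    rw [← hcm, h, Subgroup.comap_top]
  have hdvd : Nat.card (M.map f) ∣ Nat.card (G ⧸ N) := Subgroup.card_subgroup_dvd_card _
  have hab : a < b := by
    rw [ha, hb] at hdvd
    rcases lt_or_eq_of_le ((Nat.pow_dvd_pow_iff_le_right (by norm_num : 1 < 2)).mp hdvd) with h | h
    · exact h
    · exact absurd (Subgroup.eq_top_of_card_eq _ (by rw [ha, hb, h])) hne
  obtain ⟨K, hK, hMK⟩ := Sylow.exists_subgroup_card_pow_succ (p := 2) (n := a)
    (by rw [hb]; exact pow_dvd_pow 2 hab) ha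
  refine ⟨K.comap f, ?_, ?_⟩
  · rw [← hcm]
    exact Subgroup.comap_mono hMK
  · have h1 : M.relIndex (K.comap f) = (M.map f).relIndex K := by
      conv_lhs => rw [← hcm]
      rw [Subgroup.relIndex_comap, Subgroup.map_comap_eq_self_of_surjective hf]
    rw [h1]
    have h3 := Subgroup.card_mul_index ((M.map f).subgroupOf K)
    have h4 : Nat.card ((M.map f).subgroupOf K) = 2 ^ a := by
      rw [Nat.card_congr (Subgroup.subgroupOfEquivOfLe hMK).toEquiv, ha]
    rw [h4, hK, pow_succ] at h3
    exact Nat.eq_of_mul_eq_mul_left (by positivity) h3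

/-- **`p`-parity over the subfields of a Galois extension.** -/
theorem result [FiniteDimensional ℚ_[p] X] (τ : ℚ_[p] →+* ℂ) (E : Curve p G X) (N : Subgroup G) [N.Normal]
    (hsol : Group.IsSolvable N) (a : ℕ)
    (ha : ∀ g : G, (∃ b : ℕ, g ^ 2 ^ b = 1) → ∀ n ∈ N, g ^ 2 ^ a * n = n * g ^ 2 ^ a)
    (k : ℕ) (hk : E.Mult k)
    (hN : ∀ q : ℕ, q.Prime → q ∣ Nat.card N → 2 ^ (a + 1) ∣ orderOf (k : ZMod q)) :
    (∀ H : Subgroup G, E.Parity H ↔ E.Parity (H ⊔ N)) ∧
    (⁅(⊤ : Subgroup G), ⊤⁆ ≤ N → E.Parity ⊤ → (∀ H : Subgroup G, H.index = 2 → E.Parity H) →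
      ∀ H : Subgroup G, E.Parity H) ∧
    ((∀ g : G, ∃ j : ℕ, g ^ 2 ^ j ∈ N) →
      (∀ H H' : Subgroup G, H ≤ H' → H.relIndex H' = 2 → E.Parity H) →
      ∀ H : Subgroup G, H ⊔ N ≠ ⊤ → E.Parity H) := by
  classical
  let D : G → ℂ := fun g => τ (E.ρ.character g) + Dw E.w g
  have hpar : ∀ H : Subgroup G, E.Parity H ↔ Ev D H := fun H => parity τ E.ρ E.w E.dual H (E.W H) (E.artin H)
  have hD : Pool.Agent.W446.AS.Virt D := by
    have h1 : D = (fun g => τ (E.ρ.character g)) + Dw E.w := rfl
    rw [h1]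
    exact add_mem (virt_char τ E.ρ) (virt_Dw E.w)
  have hDk : ∀ k : ℕ, E.Mult k → ∀ g, D (g ^ k) = D g := by
    intro k hk g
    change τ (E.ρ.character (g ^ k)) + Dw E.w (g ^ k) = _
    rw [hk.2, Dw_pow E.w hk.1 (fun χ hχ hre => E.galois χ hχ hre k hk.1)]
  have hinv : ∀ g, D g⁻¹ = D g := by
    intro g
    obtain ⟨n, hn⟩ : ∃ n, Nat.card G = n + 1 := ⟨_, (Nat.succ_pred_eq_of_pos Nat.card_pos).symm⟩
    have h1 : ∀ g : G, g ^ n = g⁻¹ := fun g => by
      rw [eq_inv_iff_mul_eq_one, ← pow_succ, ← hn, pow_card_eq_one']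
    have h2 : Nat.Coprime (Nat.card G) n := by
      rw [hn]
      exact Nat.coprime_self_add_left.mpr (Nat.coprime_one_left n) |>.symm |>.symm
    rw [← h1, hDk n ⟨h2, fun g => by rw [h1, E.selfdual]⟩]
  refine ⟨fun H => ?_, fun hab h1 h2 H => ?_, fun h2 quad H hH => ?_⟩
  · rw [hpar, hpar]
    exact tower_ev hD N hsol a k ha hk.1 (hDk k hk) hN H
  · rw [hpar]
    exact abelian_base hD N hsol hab a k ha hk.1 (hDk k hk) hinv hN ((hpar ⊤).mp h1)
      (fun U hU => (hpar U).mp (h2 U hU)) H
  · obtain ⟨M', hM', hind⟩ := exists_index_two N h2 (H ⊔ N) le_sup_right hH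
    rw [hpar, tower_ev hD N hsol a k ha hk.1 (hDk k hk) hN H, ← hpar]
    exact quad _ M' hM' hind

end Pool.Agent.Results.MP_ddf76b_nt.SubfieldsOverAbelianFields
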